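import Mathlib

set_option autoImplicit false

/-!
# Every finitely generated integral domain has a d-Sigma-2 Scott sentence

We define the infinitary formulas of `L_{ω₁ω}`, the classes `Σ_α`, `Π_α` and d-`Σ_α`, and Scott
sentences, and we prove that every integral domain which is finitely generated as a structure for
the language `(0, 1, +, -, ·)` of rings has a d-`Σ_2` Scott sentence.

Idea. Let `a` generate the domain `R` and let `b` satisfy in `R` all the universal formulas which
`a` satisfies. Then `a ↦ b` extends to an isomorphism of `R` with the subring `S` generated by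
`b`. Both have the same finite transcendence degree over the prime ring, so `R` is algebraic over
`S`. If `α ∈ R` is a root of a polynomial `q ≠ 0` over `S` of the least degree, then (as `b`
satisfies the universal formulas of `a`, and `S` is the image of `R`) `q` has a root `β` in `S`;
division by `X - β` gives `α = β ∈ S`. Hence `b` generates `R`, and the orbit of `a` is defined
by a `Π_1` formula, which yields the Scott sentence.
-/

namespace Pool.Agent.Results.MP_93e0ce_lc.DomainScottSentence

open FirstOrder FirstOrder.Language Set Polynomial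

/-! ## The infinitary logic -/

/-- Formulas of the infinitary logic `L_{ω₁ω}` with free variables indexed by `Fin n`: they are
built from the finitary first-order formulas by negation, binary conjunction, countable
disjunction and conjunction, and finite strings of existential or universal quantifiers. In
`ex m φ` and `all m φ` the last `m` of the `n + m` variables of `φ` are quantified. -/
inductive Inf (L : FirstOrder.Language.{0, 0}) : ℕ → Type
  | fin {n : ℕ} (φ : L.Formula (Fin n)) : Inf L n
  | neg {n : ℕ} (φ : Inf L n) : Inf L n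
  | and {n : ℕ} (φ ψ : Inf L n) : Inf L n
  | disj {n : ℕ} (φ : ℕ → Inf L n) : Inf L n
  | conj {n : ℕ} (φ : ℕ → Inf L n) : Inf L n
  | ex {n : ℕ} (m : ℕ) (φ : Inf L (n + m)) : Inf L n
  | all {n : ℕ} (m : ℕ) (φ : Inf L (n + m)) : Inf L n

/-- Truth of an infinitary formula in a structure under an assignment of its free variables. -/
def Inf.Realize {L : FirstOrder.Language.{0, 0}} {M : Type} [L.Structure M] :
    ∀ {n : ℕ}, Inf L n → (Fin n → M) → Prop
  | _, .fin φ, v => φ.Realize v
  | _, .neg φ, v => ¬ φ.Realize v
  | _, .and φ ψ, v => φ.Realize v ∧ ψ.Realize v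
  | _, .disj φ, v => ∃ i, (φ i).Realize v
  | _, .conj φ, v => ∀ i, (φ i).Realize v
  | _, .ex m φ, v => ∃ w : Fin m → M, φ.Realize (Fin.append v w)
  | _, .all m φ, v => ∀ w : Fin m → M, φ.Realize (Fin.append v w)

/-- The complexity classes. `Cls L true α n φ` says that `φ` is a `Σ_α` formula and
`Cls L false α n φ` says that it is a `Π_α` formula: the finitary quantifier-free formulas are
`Σ_0` and `Π_0`; a `Σ_α` formula is a countable disjunction of formulas `∃ x̄ φ` with each `φ`
in `Π_β` for some `β < α`; a `Π_α` formula is a countable conjunction of formulas `∀ x̄ φ` with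
each `φ` in `Σ_β` for some `β < α`. -/
inductive Cls (L : FirstOrder.Language.{0, 0}) : Bool → Ordinal.{0} → (n : ℕ) → Inf L n → Prop
  | base (s : Bool) {n : ℕ} (φ : L.Formula (Fin n)) (h : φ.IsQF) : Cls L s 0 n (.fin φ)
  | sigma {α : Ordinal.{0}} {n : ℕ} (m : ℕ → ℕ) (φ : ∀ i, Inf L (n + m i))
      (β : ℕ → Ordinal.{0}) (hβ : ∀ i, β i < α) (h : ∀ i, Cls L false (β i) (n + m i) (φ i)) :
      Cls L true α n (.disj fun i => .ex (m i) (φ i))
  | pi {α : Ordinal.{0}} {n : ℕ} (m : ℕ → ℕ) (φ : ∀ i, Inf L (n + m i))
      (β : ℕ → Ordinal.{0}) (hβ : ∀ i, β i < α) (h : ∀ i, Cls L true (β i) (n + m i) (φ i)) :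
      Cls L false α n (.conj fun i => .all (m i) (φ i))

/-- A d-`Σ_α` formula is the conjunction of a `Σ_α` formula and a `Π_α` formula. -/
def IsDSigma {L : FirstOrder.Language.{0, 0}} (α : Ordinal.{0}) {n : ℕ} (φ : Inf L n) : Prop :=
  ∃ ψ θ : Inf L n, Cls L true α n ψ ∧ Cls L false α n θ ∧ φ = .and ψ θ

/-- `φ` is a Scott sentence of the structure `A`: its countable models are exactly the countable
structures isomorphic to `A`. -/
def IsScottSentence {L : FirstOrder.Language.{0, 0}} (φ : Inf L 0) (A : Type) [L.Structure A] : Prop :=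
  ∀ (M : Type) [L.Structure M] [Countable M],
    φ.Realize (default : Fin 0 → M) ↔ Nonempty (M ≃[L] A)

/-! ## Structures whose generating tuple has an orbit defined by universal formulas -/

section General

variable {L : FirstOrder.Language.{0, 0}}

theorem realize_equiv {M A : Type} [L.Structure M] [L.Structure A] (e : M ≃[L] A) :
    ∀ {n : ℕ} (φ : Inf L n) (v : Fin n → M), φ.Realize v ↔ φ.Realize (e ∘ v) := by
  intro n φ
  induction φ with
  | fin φ =>
    intro v
    exact (StrongHomClass.realize_formula e φ (v := v)).symm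
  | neg φ ih => intro v; exact not_congr (ih v)
  | and φ ψ ih1 ih2 => intro v; exact and_congr (ih1 v) (ih2 v)
  | disj φ ih => intro v; exact exists_congr fun i => ih i v
  | conj φ ih => intro v; exact forall_congr' fun i => ih i v
  | @ex n m φ ih =>
    intro v
    constructor
    · rintro ⟨w, hw⟩
      refine ⟨e ∘ w, ?_⟩
      rw [ih] at hw
      convert hw using 1
      funext i
      refine Fin.addCases (fun i => ?_) (fun i => ?_) i <;> simp
    · rintro ⟨w, hw⟩
      refine ⟨e.symm ∘ w, ?_⟩
      rw [ih]
      convert hw using 1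
      funext i
      refine Fin.addCases (fun i => ?_) (fun i => ?_) i <;> simp
  | @all n m φ ih =>
    intro v
    constructor
    · intro h w
      have hw := h (e.symm ∘ w)
      rw [ih] at hw
      convert hw using 1
      funext i
      refine Fin.addCases (fun i => ?_) (fun i => ?_) i <;> simp
    · intro h w
      have hw := h (e ∘ w)
      rw [ih]
      convert hw using 1
      funext i
      refine Fin.addCases (fun i => ?_) (fun i => ?_) i <;> simp

/-- If `c` satisfies the quantifier-free formulas of the generating tuple `a` of `A` and generates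
`M`, then `M` is isomorphic to `A`. -/
theorem exists_iso {M A : Type} [L.Structure M] [L.Structure A] {N : ℕ} (a : Fin N → A)
    (c : Fin N → M) (ha : ∀ x : A, ∃ t : L.Term (Fin N), t.realize a = x)
    (hc : ∀ y : M, ∃ t : L.Term (Fin N), t.realize c = y)
    (h : ∀ ψ : L.Formula (Fin N), ψ.IsQF → ψ.Realize a → ψ.Realize c) :
    Nonempty (M ≃[L] A) := by
  have h' : ∀ ψ : L.Formula (Fin N), ψ.IsQF → (ψ.Realize a ↔ ψ.Realize c) := by
    intro ψ hψ
    refine ⟨h ψ hψ, fun h1 => ?_⟩
    by_contra h2
    have h3 : ψ.not.Realize c := h ψ.not hψ.not (by rw [Formula.realize_not]; exact h2)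
    rw [Formula.realize_not] at h3
    exact h3 h1
  have heq : ∀ t s : L.Term (Fin N), t.realize a = s.realize a ↔ t.realize c = s.realize c := by
    intro t s
    have h1 := h' (t.equal s) (BoundedFormula.IsAtomic.equal _ _).isQF
    rwa [Formula.realize_equal, Formula.realize_equal] at h1
  choose ta hta using ha
  choose tc htc using hc
  refine ⟨⟨⟨fun y => (tc y).realize a, fun x => (ta x).realize c, ?_, ?_⟩, ?_, ?_⟩⟩
  · intro y
    show (ta ((tc y).realize a)).realize c = y
    conv_rhs => rw [← htc y]
    rw [← heq, hta]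
  · intro x
    show (tc ((ta x).realize c)).realize a = x
    conv_rhs => rw [← hta x]
    rw [heq, htc]
  · intro n f x
    show (tc (Structure.funMap f x)).realize a = Structure.funMap f fun i => (tc (x i)).realize a
    have h2 : (tc (Structure.funMap f x)).realize a
        = (Term.func f fun i => tc (x i)).realize a := by
      rw [heq, htc, Term.realize_func]
      congr 1
      funext i
      exact (htc (x i)).symm
    rw [h2, Term.realize_func]
  · intro n r x
    show Structure.RelMap r (fun i => (tc (x i)).realize a) ↔ Structure.RelMap r x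
    have h1 := h' (r.formula fun i => tc (x i)) (BoundedFormula.IsAtomic.rel _ _).isQF
    rw [Formula.realize_rel, Formula.realize_rel] at h1
    rw [h1]
    have h2 : (fun i => (tc (x i)).realize c) = x := funext fun i => htc (x i)
    rw [h2]

theorem append_default {M : Type} {n : ℕ} (v : Fin 0 → M) (b : Fin (0 + n) → M) :
    Fin.append v (fun i => b (Fin.natAdd 0 i)) = b := by
  funext i
  refine Fin.addCases (fun i => i.elim0) (fun i => ?_) i
  rw [Fin.append_right]

/-- The renaming of variables that leaves room for one new variable after the first `N`. -/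
def shift (N m : ℕ) : Fin (N + m) → Fin (N + 1 + m) :=
  Fin.addCases (fun i => Fin.castAdd m i.castSucc) (fun j => Fin.natAdd (N + 1) j)

theorem append_comp_shift {M : Type} {N m : ℕ} (b : Fin N → M) (y : M) (w : Fin m → M) :
    Fin.append (Fin.snoc (α := fun _ => M) b y) w ∘ shift N m = Fin.append b w := by
  funext i
  refine Fin.addCases (fun i => ?_) (fun i => ?_) i
  · simp [shift]
  · simp [shift]

/-- Let `a` generate `A` and assume that every tuple which satisfies the universal formulas that
`a` satisfies generates `A`, too. Then `A` has a d-`Σ_2` Scott sentence. -/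
theorem exists_scott [Countable L.Symbols] {A : Type} [L.Structure A] {n : ℕ}
    (a : Fin (0 + n) → A) (ha : ∀ x : A, ∃ t : L.Term (Fin (0 + n)), t.realize a = x)
    (h : ∀ b : Fin (0 + n) → A,
      (∀ (m : ℕ) (ψ : L.Formula (Fin (0 + n + m))), ψ.IsQF →
        (∀ w : Fin m → A, ψ.Realize (Fin.append a w)) → ∀ w, ψ.Realize (Fin.append b w)) →
      ∀ x : A, ∃ t : L.Term (Fin (0 + n)), t.realize b = x) :
    ∃ φ : Inf L 0, IsDSigma 2 φ ∧ IsScottSentence φ A := by
  classical
  -- the universal formulas of `a`
  let Θ : Type := {p : Σ m : ℕ, L.Formula (Fin (0 + n + m)) //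
    p.2.IsQF ∧ ∀ w : Fin p.1 → A, p.2.Realize (Fin.append a w)}
  have hcs : Countable (Σ l, L.Functions l) :=
    Function.Injective.countable (f := fun x => (Sum.inl x : L.Symbols)) Sum.inl_injective
  have hne : Nonempty Θ := ⟨⟨⟨0, ⊤⟩, BoundedFormula.IsQF.top, fun w => by simp⟩⟩
  obtain ⟨e, he⟩ := exists_surjective_nat Θ
  obtain ⟨g, hg⟩ := exists_surjective_nat (Θ ⊕ L.Term (Fin (0 + n)))
  let p : Inf L (0 + n) := .conj fun i => .all (e i).1.1 (.fin (e i).1.2)
  have hp : Cls L false 1 (0 + n) p :=
    Cls.pi _ _ (fun _ => 0) (fun _ => zero_lt_one) fun i => Cls.base _ _ (e i).2.1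
  have hpr : ∀ {M : Type} [L.Structure M] (b : Fin (0 + n) → M), p.Realize b ↔
      ∀ (m : ℕ) (ψ : L.Formula (Fin (0 + n + m))), ψ.IsQF →
        (∀ w : Fin m → A, ψ.Realize (Fin.append a w)) →
          ∀ w : Fin m → M, ψ.Realize (Fin.append b w) := by
    intro M _ b
    constructor
    · intro hb m ψ h1 h2 w
      obtain ⟨i, hi⟩ := he ⟨⟨m, ψ⟩, h1, h2⟩
      have h3 : ∀ w : Fin (e i).1.1 → M, (e i).1.2.Realize (Fin.append b w) := hb i
      rw [hi] at h3
      exact h3 w
    · intro hb i w
      exact hb _ _ (e i).2.1 (e i).2.2 w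
  -- some tuple satisfies these formulas
  let S : Inf L 0 := .disj fun _ => .ex n p
  have hS : Cls L true 2 0 S :=
    Cls.sigma _ _ (fun _ => 1) (fun _ => one_lt_two) fun _ => hp
  -- every tuple which satisfies them generates the structure
  let m : Θ ⊕ L.Term (Fin (0 + n)) → ℕ := fun x => match x with
    | .inl θ => θ.1.1
    | .inr _ => 0
  let q : ∀ x : Θ ⊕ L.Term (Fin (0 + n)), L.Formula (Fin (0 + (n + 1) + m x)) := fun x =>
    match x with
    | .inl θ => (θ.1.2.relabel (shift (0 + n) θ.1.1)).not
    | .inr t => (t.relabel fun i : Fin (0 + n) => Fin.castAdd 0 i.castSucc).equal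
        (Term.var (Fin.castAdd 0 (Fin.last (0 + n))))
  have hq : ∀ x, (q x).IsQF := by
    intro x
    match x with
    | .inl θ => exact (θ.2.1.relabel _).not
    | .inr t => exact (BoundedFormula.IsAtomic.equal _ _).isQF
  let T : Inf L 0 := .conj fun _ => .all (n + 1) (.disj fun i => .ex (m (g i)) (.fin (q (g i))))
  have hT : Cls L false 2 0 T := by
    refine Cls.pi (fun _ => n + 1) _ (fun _ => 1) (fun _ => one_lt_two) fun _ => ?_
    exact Cls.sigma (fun i => m (g i)) _ (fun _ => 0) (fun _ => zero_lt_one) fun i =>
      Cls.base _ _ (hq (g i))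
  have hTr : ∀ {M : Type} [L.Structure M], T.Realize (default : Fin 0 → M) ↔
      ∀ b : Fin (0 + n) → M, p.Realize b → ∀ y : M, ∃ t : L.Term (Fin (0 + n)),
        t.realize b = y := by
    intro M _
    have h1 : T.Realize (default : Fin 0 → M) ↔ ∀ w : Fin (n + 1) → M,
        ∃ x, ∃ u : Fin (m x) → M, (q x).Realize (Fin.append (Fin.append default w) u) := by
      constructor
      · intro h w
        obtain ⟨i, u, hu⟩ := h 0 w
        exact ⟨g i, u, hu⟩
      · intro h _ w
        obtain ⟨x, u, hu⟩ := h w
        obtain ⟨i, rfl⟩ := hg x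
        exact ⟨i, u, hu⟩
    rw [h1]
    have h2 : ∀ (b : Fin (0 + n) → M) (y : M),
        (∃ x, ∃ u : Fin (m x) → M, (q x).Realize
          (Fin.append (Fin.snoc (α := fun _ => M) b y) u)) ↔
        (p.Realize b → ∃ t : L.Term (Fin (0 + n)), t.realize b = y) := by
      intro b y
      constructor
      · rintro ⟨x, u, hu⟩ hb
        rw [hpr] at hb
        match x, u, hu with
        | .inl θ, u, hu =>
          exfalso
          have h3 : ¬ (θ.1.2.relabel (shift (0 + n) θ.1.1)).Realize
              (Fin.append (Fin.snoc (α := fun _ => M) b y) u) := by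
            rw [← Formula.realize_not]; exact hu
          rw [Formula.realize_relabel, append_comp_shift] at h3
          exact h3 (hb _ _ θ.2.1 θ.2.2 u)
        | .inr t, u, hu =>
          refine ⟨t, ?_⟩
          have h3 : ((t.relabel fun i : Fin (0 + n) => Fin.castAdd 0 i.castSucc).equal
              (Term.var (Fin.castAdd 0 (Fin.last (0 + n))))).Realize
              (Fin.append (Fin.snoc (α := fun _ => M) b y) (u : Fin 0 → M)) := hu
          rw [Formula.realize_equal, Term.realize_relabel, Term.realize_var,
            Fin.append_left, Fin.snoc_last] at h3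
          rw [← h3]
          congr 1
          funext i
          simp only [Function.comp_apply, Fin.append_left, Fin.snoc_castSucc]
      · intro hb
        by_cases h3 : p.Realize b
        · obtain ⟨t, ht⟩ := hb h3
          refine ⟨.inr t, (default : Fin 0 → M), ?_⟩
          show ((t.relabel fun i : Fin (0 + n) => Fin.castAdd 0 i.castSucc).equal
              (Term.var (Fin.castAdd 0 (Fin.last (0 + n))))).Realize
              (Fin.append (Fin.snoc (α := fun _ => M) b y) (default : Fin 0 → M))
          rw [Formula.realize_equal, Term.realize_relabel, Term.realize_var,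
            Fin.append_left, Fin.snoc_last, ← ht]
          congr 1
          funext i
          simp only [Function.comp_apply, Fin.append_left, Fin.snoc_castSucc]
        · rw [hpr] at h3
          push Not at h3
          obtain ⟨m', ψ, h4, h5, w, hw⟩ := h3
          refine ⟨.inl ⟨⟨m', ψ⟩, h4, h5⟩, w, ?_⟩
          show ((ψ.relabel (shift (0 + n) m')).not).Realize
              (Fin.append (Fin.snoc (α := fun _ => M) b y) w)
          rw [Formula.realize_not, Formula.realize_relabel, append_comp_shift]
          exact hw
    constructor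
    · intro h b hb y
      refine (h2 b y).1 ?_ hb
      have h3 := h (fun i => (Fin.snoc (α := fun _ => M) b y : Fin (0 + (n + 1)) → M)
        (Fin.natAdd 0 i))
      rw [append_default] at h3
      exact h3
    · intro h
      have key : ∀ v : Fin (0 + n + 1) → M,
          ∃ x, ∃ u : Fin (m x) → M, (q x).Realize (Fin.append v u) := by
        intro v
        have h3 := (h2 (fun i => v i.castSucc) (v (Fin.last (0 + n)))).2 (fun hb => h _ hb _)
        have h4 : (Fin.snoc (α := fun _ => M) (fun i => v (Fin.castSucc i))
            (v (Fin.last (0 + n)))) = v := Fin.snoc_init_self v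
        rw [h4] at h3
        exact h3
      exact fun w => key (Fin.append (m := 0) default w)
  have hSr : ∀ {M : Type} [L.Structure M], S.Realize (default : Fin 0 → M) ↔
      ∃ b : Fin (0 + n) → M, p.Realize b := by
    intro M _
    constructor
    · rintro ⟨i, w, hw⟩
      exact ⟨_, hw⟩
    · rintro ⟨b, hb⟩
      refine ⟨0, fun i => b (Fin.natAdd 0 i), ?_⟩
      rw [append_default]
      exact hb
  refine ⟨.and S T, ⟨S, T, hS, hT, rfl⟩, ?_⟩
  intro M _ _
  constructor
  · rintro ⟨h1, h2⟩
    rw [hSr] at h1
    rw [hTr] at h2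
    obtain ⟨c, hc⟩ := h1
    refine exists_iso a c ha (h2 c hc) fun ψ hψ hψa => ?_
    rw [hpr] at hc
    have h3 := hc 0 (ψ.relabel fun i => Fin.castAdd 0 i) (hψ.relabel _) (fun w => by
      rw [Formula.realize_relabel]
      convert hψa using 1
      funext i
      exact Fin.append_left _ _ _) default
    rw [Formula.realize_relabel] at h3
    convert h3 using 1
    funext i
    exact (Fin.append_left _ _ _).symm
  · rintro ⟨e⟩
    rw [realize_equiv e]
    have h0 : (e ∘ (default : Fin 0 → M)) = default := Subsingleton.elim _ _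
    rw [h0]
    refine ⟨hSr.2 ⟨a, (hpr a).2 fun m ψ _ h2 => h2⟩, hTr.2 fun b hb => h b ((hpr b).1 hb)⟩

end General

/-! ## Finitely generated integral domains -/

section Domain

/-- A finitely generated domain is algebraic over every subalgebra isomorphic to it. -/
theorem algebraic_of_equiv {k R : Type} [CommRing k] [IsDomain k] [CommRing R] [IsDomain R]
    [Algebra k R] (hinj : Function.Injective (algebraMap k R)) [Algebra.FiniteType k R]
    (S : Subalgebra k R) (e : R ≃ₐ[k] S) : Algebra.IsAlgebraic S R := by
  have : FaithfulSMul k R := (faithfulSMul_iff_algebraMap_injective k R).2 hinj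
  have h1 : Algebra.trdeg k R < Cardinal.aleph0 := _root_.trdeg_lt_aleph0_of_finiteType
  have h2 : Algebra.trdeg k R = Algebra.trdeg k S := e.trdeg_eq
  have : FaithfulSMul k S := (faithfulSMul_iff_algebraMap_injective k S).2 (by
    intro x y hxy
    exact hinj (congrArg (algebraMap S R) hxy))
  have h3 : Algebra.trdeg k S + Algebra.trdeg S R = Algebra.trdeg k R :=
    _root_.trdeg_add_eq k S
  have h4 : Algebra.trdeg S R = 0 := by
    rw [← h2, Cardinal.add_eq_left_iff] at h3
    rcases h3 with h3 | h3
    · exact absurd ((le_max_left _ _).trans h3) (not_le.2 h1)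
    · exact h3
  exact _root_.trdeg_eq_zero_iff.1 h4

/-- The main algebraic lemma. -/
theorem surjective_of_types {R : Type} [CommRing R] [IsDomain R] {N : ℕ}
    (A B : FreeCommRing (Fin N) →+* R) (hA : Function.Surjective A)
    (hex : ∀ Q : (FreeCommRing (Fin N))[X],
      (∀ γ, (Q.map A).eval γ ≠ 0) → ∀ γ, (Q.map B).eval γ ≠ 0)
    (hker : ∀ p, A p = 0 ↔ B p = 0) : Function.Surjective B := by
  classical
  -- `R` is algebraic over the range of `B`
  have halg : ∀ α : R, ∃ Q : (FreeCommRing (Fin N))[X], Q.map B ≠ 0 ∧ (Q.map B).eval α = 0 := by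
    obtain ⟨p, hp⟩ := CharP.exists R
    let _ : Algebra (ZMod p) R := ZMod.algebra R p
    have hdom : IsDomain (ZMod p) := by
      rcases CharP.char_is_prime_or_zero R p with h | h
      · have : Fact p.Prime := ⟨h⟩
        infer_instance
      · subst h
        exact (inferInstance : IsDomain ℤ)
    have hinj : Function.Injective (algebraMap (ZMod p) R) := by
      have h1 : algebraMap (ZMod p) R = ZMod.castHom (dvd_refl p) R := Subsingleton.elim _ _
      rw [h1]
      exact ZMod.castHom_injective R
    have hft : Algebra.FiniteType ℤ R := by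
      refine ⟨⟨Finset.univ.image fun i => A (FreeCommRing.of i), ?_⟩⟩
      rw [eq_top_iff]
      rintro x -
      obtain ⟨P, rfl⟩ := hA x
      induction P using FreeCommRing.induction_on with
      | neg_one =>
        rw [map_neg, map_one]
        exact neg_mem (one_mem _)
      | of i =>
        apply Algebra.subset_adjoin
        simp
      | add x y hx hy => rw [map_add]; exact add_mem hx hy
      | mul x y hx hy => rw [map_mul]; exact mul_mem hx hy
    have hft' : Algebra.FiniteType (ZMod p) R :=
      Algebra.FiniteType.of_restrictScalars_finiteType ℤ (ZMod p) R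
    let S : Subalgebra (ZMod p) R :=
      { B.range with
        algebraMap_mem' := by
          intro r
          obtain ⟨n, rfl⟩ := ZMod.intCast_surjective r
          rw [map_intCast]
          exact intCast_mem B.range n }
    have hS : ∀ x, B x ∈ S := fun x => ⟨x, rfl⟩
    let B' : FreeCommRing (Fin N) →+* S := B.codRestrict S hS
    have hB' : Function.Surjective B' := by
      rintro ⟨_, ⟨x, rfl⟩⟩
      exact ⟨x, rfl⟩
    let φ : R →+* S := A.liftOfSurjective hA ⟨B', by
      intro x hx
      rw [RingHom.mem_ker] at hx ⊢
      exact Subtype.ext ((hker x).1 hx)⟩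
    have hφ : ∀ x, φ (A x) = B' x := fun x =>
      RingHom.liftOfRightInverse_comp_apply _ _ _ _ x
    have hφi : Function.Injective φ := by
      rw [injective_iff_map_eq_zero]
      intro x hx
      obtain ⟨y, rfl⟩ := hA x
      rw [hφ] at hx
      exact (hker y).2 (congrArg Subtype.val hx)
    have hφs : Function.Surjective φ := by
      intro y
      obtain ⟨x, rfl⟩ := hB' y
      exact ⟨A x, hφ x⟩
    let e : R ≃ₐ[ZMod p] S := AlgEquiv.ofRingEquiv (f := RingEquiv.ofBijective φ ⟨hφi, hφs⟩) (by
      intro r
      have h1 : φ.comp (algebraMap (ZMod p) R) = algebraMap (ZMod p) S := Subsingleton.elim _ _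
      exact congrArg (fun f : ZMod p →+* S => f r) h1)
    have h1 : Algebra.IsAlgebraic S R := algebraic_of_equiv hinj S e
    intro α
    obtain ⟨q, hq0, hq⟩ := h1.isAlgebraic α
    obtain ⟨Q, rfl⟩ := Polynomial.map_surjective B' hB' q
    have h2 : Q.map B = (Q.map B').map (algebraMap S R) := by
      rw [Polynomial.map_map]
      rfl
    refine ⟨Q, ?_, ?_⟩
    · rw [h2]
      intro h3
      apply hq0
      exact (Polynomial.map_eq_zero_iff (FaithfulSMul.algebraMap_injective S R)).1 h3
    · rw [h2, Polynomial.eval_map_algebraMap]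
      exact hq
  intro α
  -- a polynomial of the least degree
  have hd : ∃ d : ℕ, ∃ Q : (FreeCommRing (Fin N))[X], Q.map B ≠ 0 ∧ (Q.map B).eval α = 0 ∧
      (Q.map B).natDegree = d := by
    obtain ⟨Q, h1, h2⟩ := halg α
    exact ⟨_, Q, h1, h2, rfl⟩
  obtain ⟨Q, h1, h2, h3⟩ := Nat.find_spec hd
  obtain ⟨γ, hγ⟩ : ∃ γ, (Q.map A).eval γ = 0 := by
    by_contra hcon
    push Not at hcon
    exact hex Q hcon α h2
  obtain ⟨T, rfl⟩ := hA γ
  have hev : ∀ (D : FreeCommRing (Fin N) →+* R), (Q.map D).eval (D T) = D (Q.eval T) := by
    intro D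
    rw [Polynomial.eval_map, Polynomial.eval₂_at_apply]
  have h4 : A (Q.eval T) = 0 := by
    rw [← hev]
    exact hγ
  have h5 : B (Q.eval T) = 0 := (hker _).1 h4
  have h6 : Q = (X - C T) * (Q /ₘ (X - C T)) + C (Q.eval T) := by
    rw [← Polynomial.modByMonic_X_sub_C_eq_C_eval, add_comm, Polynomial.modByMonic_add_div]
  have h7 : Q.map B = (X - C (B T)) * (Q /ₘ (X - C T)).map B := by
    conv_lhs => rw [h6]
    rw [Polynomial.map_add, Polynomial.map_mul, Polynomial.map_sub, Polynomial.map_X,
      Polynomial.map_C, Polynomial.map_C, h5, map_zero, add_zero]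
  by_cases hα : α = B T
  · exact ⟨T, hα.symm⟩
  exfalso
  have h8 : ((Q /ₘ (X - C T)).map B) ≠ 0 := by
    intro h
    rw [h, mul_zero] at h7
    exact h1 h7
  have h9 : ((Q /ₘ (X - C T)).map B).eval α = 0 := by
    rw [h7, Polynomial.eval_mul, mul_eq_zero] at h2
    rcases h2 with h2 | h2
    · rw [Polynomial.eval_sub, Polynomial.eval_X, Polynomial.eval_C, sub_eq_zero] at h2
      exact absurd h2 hα
    · exact h2
  have h10 : ((Q /ₘ (X - C T)).map B).natDegree < Nat.find hd := by
    rw [← h3, h7, Polynomial.natDegree_mul (Polynomial.X_sub_C_ne_zero _) h8,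
      Polynomial.natDegree_X_sub_C]
    omega
  exact Nat.find_min hd h10 ⟨_, h8, h9, rfl⟩

/-- The value of a term is the value of a polynomial with integer coefficients. -/
theorem exists_poly {R : Type} [CommRing R] [FirstOrder.Ring.CompatibleRing R] {N : ℕ}
    (v : Fin N → R) (t : FirstOrder.Language.ring.Term (Fin N)) :
    ∃ P : FreeCommRing (Fin N), FreeCommRing.lift v P = t.realize v := by
  induction t with
  | var i => exact ⟨FreeCommRing.of i, by simp⟩
  | func f ts ih =>
    choose P hP using ih
    rw [Term.realize_func]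
    cases f with
    | add => exact ⟨P 0 + P 1, by rw [FirstOrder.Ring.CompatibleRing.funMap_add, map_add, hP, hP]⟩
    | mul => exact ⟨P 0 * P 1, by rw [FirstOrder.Ring.CompatibleRing.funMap_mul, map_mul, hP, hP]⟩
    | neg => exact ⟨- P 0, by rw [FirstOrder.Ring.CompatibleRing.funMap_neg, map_neg, hP]⟩
    | zero => exact ⟨0, by rw [FirstOrder.Ring.CompatibleRing.funMap_zero, map_zero]⟩
    | one => exact ⟨1, by rw [FirstOrder.Ring.CompatibleRing.funMap_one, map_one]⟩

/-- A polynomial over the free commutative ring as an element of a free commutative ring with one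
more generator. -/
noncomputable def flat {N : ℕ} (Q : (FreeCommRing (Fin N))[X]) : FreeCommRing (Fin (N + 1)) :=
  Q.eval₂ (FreeCommRing.lift fun i => FreeCommRing.of (Fin.castAdd 1 i))
    (FreeCommRing.of (Fin.natAdd N 0))

theorem lift_flat {R : Type} [CommRing R] {N : ℕ} (v : Fin N → R) (w : Fin 1 → R)
    (Q : (FreeCommRing (Fin N))[X]) :
    FreeCommRing.lift (Fin.append v w) (flat Q) = (Q.map (FreeCommRing.lift v)).eval (w 0) := by
  rw [flat, Polynomial.hom_eval₂, Polynomial.eval_map]
  congr 1
  · apply FreeCommRing.hom_ext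
    intro i
    simp
  · simp

end Domain

/-- **Every finitely generated integral domain has a d-`Σ_2` Scott sentence.** Here the domain `R`
is a structure for the language `(0, 1, +, -, ·)` of rings (Mathlib's `Language.ring`), finitely
generated in the sense that some finite set is contained in no proper substructure. -/
theorem result (R : Type) [CommRing R] [IsDomain R] [FirstOrder.Ring.CompatibleRing R]
    (hfg : FirstOrder.Language.Structure.FG FirstOrder.Language.ring R) :
    ∃ φ : Inf FirstOrder.Language.ring 0, IsDSigma 2 φ ∧ IsScottSentence φ R := by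
  classical
  obtain ⟨s, hs⟩ := hfg.out
  let a : Fin (0 + s.card) → R := fun i => (s.equivFin.symm (Fin.cast (Nat.zero_add _) i) : s)
  have ha : ∀ x : R, ∃ t : FirstOrder.Language.ring.Term (Fin (0 + s.card)), t.realize a = x := by
    intro x
    have hx : x ∈ Substructure.closure FirstOrder.Language.ring (s : Set R) := by
      rw [hs]; trivial
    rw [Substructure.mem_closure_iff_exists_term] at hx
    obtain ⟨t, ht⟩ := hx
    refine ⟨t.relabel fun y => Fin.cast (Nat.zero_add _).symm (s.equivFin ⟨y.1, y.2⟩), ?_⟩
    rw [Term.realize_relabel, ← ht]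
    congr 1
    funext y
    simp [a]
  refine exists_scott a ha fun b hb => ?_
  have hpoly : ∀ (Q : (FreeCommRing (Fin (0 + s.card)))[X]),
      ((∀ γ, (Q.map (FreeCommRing.lift a)).eval γ ≠ 0) →
        ∀ γ, (Q.map (FreeCommRing.lift b)).eval γ ≠ 0) ∧
      ((∀ γ, (Q.map (FreeCommRing.lift a)).eval γ = 0) →
        ∀ γ, (Q.map (FreeCommRing.lift b)).eval γ = 0) := by
    intro Q
    let τ : FirstOrder.Language.ring.Term (Fin (0 + s.card + 1)) :=
      FirstOrder.Ring.termOfFreeCommRing (flat Q)
    have hτ : ∀ (v : Fin (0 + s.card) → R) (w : Fin 1 → R),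
        (τ.equal 0).Realize (Fin.append v w) ↔ (Q.map (FreeCommRing.lift v)).eval (w 0) = 0 := by
      intro v w
      rw [Formula.realize_equal, FirstOrder.Ring.realize_termOfFreeCommRing,
        FirstOrder.Ring.realize_zero, lift_flat]
    have hqf : (τ.equal 0).IsQF := (BoundedFormula.IsAtomic.equal _ _).isQF
    constructor
    · intro h γ
      have h1 := hb 1 (τ.equal 0).not hqf.not (fun w => by
        rw [Formula.realize_not, hτ]
        exact h _) (fun _ => γ)
      rw [Formula.realize_not, hτ] at h1
      exact h1
    · intro h γ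
      have h1 := hb 1 (τ.equal 0) hqf (fun w => by
        rw [hτ]
        exact h _) (fun _ => γ)
      rw [hτ] at h1
      exact h1
  have hB : Function.Surjective (FreeCommRing.lift b) := by
    refine surjective_of_types (FreeCommRing.lift a) (FreeCommRing.lift b) ?_
      (fun Q => (hpoly Q).1) ?_
    · intro x
      obtain ⟨t, rfl⟩ := ha x
      exact exists_poly a t
    · intro p
      have h1 := hpoly (C p)
      simp only [Polynomial.map_C, Polynomial.eval_C] at h1
      constructor
      · intro h
        exact h1.2 (fun _ => h) 0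
      · intro h
        by_contra h2
        exact h1.1 (fun _ => h2) 0 h
  intro x
  obtain ⟨P, rfl⟩ := hB x
  exact ⟨FirstOrder.Ring.termOfFreeCommRing P, FirstOrder.Ring.realize_termOfFreeCommRing P b⟩

end Pool.Agent.Results.MP_93e0ce_lc.DomainScottSentence
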